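import Pool.Agent.Lib.MP_0ae92b_ag.G26.Main
import Pool.Agent.Lib.MP_0ae92b_ag.G26.Few

set_option autoImplicit false

/-!
# Smoothness of one-dimensional intersections of osculating Schubert varieties in `G(2, d + 1)`

`x_i` distinct points of the real projective line, `(a_i ≥ b_i)` partitions with
`∑ (a_i + b_i) = 2 (d - 1) - 1 = dim G(2, d + 1) - 1`, `d' = d - ∑ b_i`.  If `d' ≤ 5`, or if
`a_i - b_i ≥ d' - 3` for some `i`, or if `a_i > b_i` for at most four `i`, then the Zariski tangent space
of the scheme `S = ⋂ Ω_{(a_i, b_i)}(x_i)` has dimension one at every complex point `V = span (f, g)` of `S`.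
In particular this holds for all partitions and all real points in `G(2, 6)`, and for all `d` and all
partitions at four real points.

Sketch of the proof.  If the tangent space at `V` is larger then there is a nonzero polynomial `N` of degree at
most `s - 5` (`s` distinct points) such that `N h g / ∏ (z - x_i) ^ (m_i + 1)` is residue free at all `x_i`, for
all `h, g ∈ V`; there is none if `s ≤ 4`.  (A) If one row `m_i` is at least `d - 3`, a second derivative of a real-rooted polynomial shows
that `V` and `N` are real, and a sum of squares is zero.  (B) For `d = 5` and seven simple points, polarise `N`: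
`V` lies in the kernel of the antisymmetric matrix `N(x_k, x_l) / (x_k - x_l)` of size seven, so this kernel has
dimension at least three.  If `N` is not real, the kernels for `N` and its conjugate leave only one line,
which contains two explicit vectors coming from the squares in the pencil of `N` and its conjugate; the
alternating kernel vector of the matrix `1 / (x_k - x_l)` gives a contradiction.
-/

namespace Pool.Agent.Results.MP_0ae92b_ag.SmoothRankTwo

open Polynomial Pool.Agent.Lib.MP_0ae92b_ag.G26

/-- Let `x_i` be distinct points of `ℝ ∪ {∞}` and `(a_i, b_i)` partitions with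
`∑ (a_i + b_i) = 2 d - 3`.  Suppose that `d' = d - ∑ b_i ≤ 5`, or that `d' ≤ a_i - b_i + 3` for some `i`, or
that `b_i < a_i` for at most four `i`.  Then for every point `V = span (f, g)` of `S = ⋂ Ω_{(a_i, b_i)}(x_i)` the Zariski tangent space of the
scheme `S` at `V` has dimension one. -/
theorem result (d : ℕ) (ι : Type) [Fintype ι] (x : ι → OnePoint ℝ) (hx : Function.Injective x)
    (a b : ι → ℕ) (hab : ∀ i, b i ≤ a i) (hsum : ∑ i, (a i + b i) + 3 = 2 * d)
    (hc : d ≤ 5 + ∑ i, b i ∨ (∃ i, d ≤ (a i - b i) + 3 + ∑ j, b j) ∨
      Nat.card {i // b i < a i} ≤ 4)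
    (f g : ℂ[X]) (hf : f ∈ Gam d) (hg : g ∈ Gam d) (hfg : LinearIndependent ℂ ![f, g])
    (hS : ∀ i, SchubEq d (x i) (a i) (b i) f g) :
    Module.finrank ℂ (TangentSpace d x a b f g) = 1 := by
  classical
  have hI : Indep f g := by
    intro c1 c2 h
    rw [LinearIndependent.pair_iff] at hfg
    exact hfg c1 c2 (by rw [smul_eq_C_mul, smul_eq_C_mul]; exact h)
  rcases hc with h | h | h
  · exact main d x hx a b hab hsum (Or.inl h) f g hf hg hI hS
  · exact main d x hx a b hab hsum (Or.inr h) f g hf hg hI hS
  · rw [Nat.card_eq_fintype_card] at h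
    exact few_main d x hx a b hab hsum h f g hf hg hI hS

end Pool.Agent.Results.MP_0ae92b_ag.SmoothRankTwo
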